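import Pool.Agent.H5.Selberg
import Pool.Agent.H6.F1
import Pool.Agent.H6.Glue
import Pool.Agent.H6.Weights2
import Pool.Agent.H69.LB.BrgL

/-!
# Averages of Montgomery's function and the number of close pairs of zeros

Under RH, for all `T > 1`, `β, l > 0` and all real `b`:
`∫_b^(b+l) F(α, T) dα ≤ (l + 1/β) N(T; -β, β) / ((T/2π) log T)`. Proof: Selberg's majorant of the interval with
Fourier transform supported in `[-β, β]`, and `F ≥ 0`.
-/

open MeasureTheory Set Filter Topology
open scoped Real Interval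

namespace H11.SZ2

open Pool.Agent Pool.Agent.H6

/-- Montgomery's function `F(α, T)`, normalised by `(T/2π) log T` -/
noncomputable def formFactor (T α : ℝ) : ℝ :=
  (PC.norm T)⁻¹ * ∑ᶠ p ∈ {p : ℂ × ℂ | p.1 ∈ PC.zerosUpTo T ∧ p.2 ∈ PC.zerosUpTo T},
    (analyticOrderNatAt riemannZeta p.1 : ℝ) * (analyticOrderNatAt riemannZeta p.2 : ℝ) *
      (Real.cos (α * Real.log T * (p.1.im - p.2.im)) * (4 / (4 + (p.1.im - p.2.im) ^ 2)))

theorem formFactor_eq (RH : RiemannHypothesis) (T α : ℝ) :
    formFactor T α = H6.FF gZ wZ FZ T α := by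
  unfold formFactor H6.FF
  rw [H69LB.finsum_zeros RH T (fun x => Real.cos (α * Real.log T * x) * (4 / (4 + x ^ 2))), one_div]
  rfl

/-- Selberg's majorant of `[-l/2, l/2]` with Fourier support in `[-β, β]` -/
noncomputable def GM (β l α : ℝ) : ℝ := Pool.Agent.H5.Mj (β * l / 2) (β * α)

theorem GM_neg (β l x : ℝ) : GM β l (-x) = GM β l x := by
  unfold GM
  rw [mul_neg, Pool.Agent.H5.Mj_neg]

section
variable {β l : ℝ} (hβ : 0 < β) (hl : 0 < l)
include hβ hl

theorem GM_int : Integrable (GM β l) := by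
  have h := Pool.Agent.H5.integrable_Mj (b := β * l / 2) (by positivity)
  exact h.comp_mul_left' hβ.ne'

theorem GM_nonneg (x : ℝ) : 0 ≤ GM β l x := by
  unfold GM
  rw [Pool.Agent.H5.Mj_eq (by positivity)]
  have h1 := Pool.Agent.H5.sl_nonneg (β * x + β * l / 2)
  have h2 := Pool.Agent.H5.sl_nonneg (β * l / 2 - β * x)
  split_ifs <;> linarith

theorem GM_ge (x : ℝ) (hx : |x| < l / 2) : 1 ≤ GM β l x := by
  unfold GM
  rw [Pool.Agent.H5.Mj_eq (by positivity), if_pos]
  · have h1 := Pool.Agent.H5.sl_nonneg (β * x + β * l / 2)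
    have h2 := Pool.Agent.H5.sl_nonneg (β * l / 2 - β * x)
    linarith
  · rw [abs_mul, abs_of_pos hβ]
    nlinarith

theorem GM_integral : ∫ x, GM β l x = l + 1 / β := by
  unfold GM
  rw [Measure.integral_comp_mul_left (fun x => Pool.Agent.H5.Mj (β * l / 2) x) β,
    Pool.Agent.H5.integral_Mj (by positivity), abs_of_pos (by positivity), smul_eq_mul]
  field_simp

theorem cosT_GM {ξ : ℝ} (hξ : β ≤ |ξ|) : cosT (GM β l) ξ = 0 := by
  have e : GM β l = fun x => Pool.Agent.H5.Mj (β * l / 2) (x / β⁻¹) := by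
    funext x
    unfold GM
    rw [div_inv_eq_mul, mul_comm β x]
  rw [e, cosT_dilate _ (by positivity), Pool.Agent.H5.cosT_Mj_eq_zero (by positivity), mul_zero]
  rw [abs_mul, abs_of_pos (by positivity : 0 < β⁻¹), inv_mul_eq_div, le_div_iff₀ hβ]
  linarith

theorem cosT_GM_le (ξ : ℝ) : |cosT (GM β l) ξ| ≤ l + 1 / β := by
  rw [← GM_integral hβ hl]
  unfold cosT
  rw [← Real.norm_eq_abs]
  refine norm_integral_le_of_norm_le (GM_int hβ hl) (Filter.Eventually.of_forall fun x => ?_)
  rw [norm_mul, Real.norm_eq_abs, Real.norm_eq_abs, abs_of_nonneg (GM_nonneg hβ hl x)]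
  exact mul_le_of_le_one_right (GM_nonneg hβ hl x) (Real.abs_cos_le_one _)

end

/-- Fourier pairing of the form factor with an integrable function -/
theorem FF_pair' {ι : Type*} {γ w : ι → ℝ} {F : ℝ → Finset ι} {g : ℝ → ℝ} (hg : Integrable g) (T : ℝ) :
    Integrable (fun α => g α * H6.FF γ w F T α) ∧
    ∫ α, g α * H6.FF γ w F T α = (1 / PC.norm T) * ∑ i ∈ F T, ∑ j ∈ F T, w i * w j *
      (cosT g (Real.log T * (γ i - γ j) / (2 * π)) * Wt (γ i - γ j)) := by
  have hπ := Real.pi_ne_zero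
  have h1 : ∀ i j, ∫ α, g α * Real.cos (α * Real.log T * (γ i - γ j)) = cosT g (Real.log T * (γ i - γ j) / (2 * π)) := by
    intro i j
    unfold cosT
    congr 1
    ext α
    congr 2
    field_simp
  have hi : ∀ i j, Integrable (fun α => g α * Real.cos (α * Real.log T * (γ i - γ j))) := by
    intro i j
    have := integrable_mul_cos hg (Real.log T * (γ i - γ j) / (2 * π))
    apply this.congr
    apply ae_of_all
    intro α
    simp only
    congr 2
    field_simp
  have e : ∀ α, g α * H6.FF γ w F T α = ∑ i ∈ F T, ∑ j ∈ F T, ((1 / PC.norm T) * (w i * w j * Wt (γ i - γ j))) *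
      (g α * Real.cos (α * Real.log T * (γ i - γ j))) := by
    intro α
    unfold H6.FF
    rw [mul_left_comm, Finset.mul_sum, Finset.mul_sum]
    apply Finset.sum_congr rfl
    intro i _
    rw [Finset.mul_sum, Finset.mul_sum]
    apply Finset.sum_congr rfl
    intro j _
    ring
  simp_rw [e]
  refine ⟨integrable_finsetSum _ fun i _ => integrable_finsetSum _ fun j _ => (hi i j).const_mul _, ?_⟩
  rw [integral_finsetSum _ (fun i _ => integrable_finsetSum _ fun j _ => (hi i j).const_mul _), Finset.mul_sum]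
  apply Finset.sum_congr rfl
  intro i _
  rw [integral_finsetSum _ (fun j _ => (hi i j).const_mul _), Finset.mul_sum]
  apply Finset.sum_congr rfl
  intro j _
  rw [integral_const_mul, h1]
  ring

/-- the average of Montgomery's function over an interval and the close pairs of zeros -/
theorem avg_le (RH : RiemannHypothesis) {T β l b : ℝ} (hT : 1 < T) (hβ : 0 < β) (hl : 0 < l) :
    ∫ α in b..b + l, formFactor T α ≤ (l + 1 / β) * (PC.pairCount T (-β) β / PC.norm T) := by
  have hn := norm_pos hT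
  have hlog := Real.log_pos hT
  have hπ := Real.pi_pos
  simp_rw [formFactor_eq RH]
  obtain ⟨c, hc⟩ : ∃ c, c = b + l / 2 := ⟨_, rfl⟩
  have hg : Integrable (fun x => GM β l (x - c)) := (GM_int hβ hl).comp_sub_right c
  obtain ⟨hI, hE⟩ := FF_pair' (γ := gZ) (w := wZ) (F := FZ) hg T
  have h1 : ∫ α in b..b + l, H6.FF gZ wZ FZ T α ≤ ∫ α, GM β l (α - c) * H6.FF gZ wZ FZ T α := by
    rw [intervalIntegral.integral_of_le (by linarith), integral_Ioc_eq_integral_Ioo,
      ← integral_indicator measurableSet_Ioo]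
    refine integral_mono_of_nonneg (Filter.Eventually.of_forall fun α => ?_) hI
      (Filter.Eventually.of_forall fun α => ?_)
    · exact indicator_nonneg (fun x _ => FF_nonneg hT x) α
    · have h2 := FF_nonneg (γ := gZ) (w := wZ) (F := FZ) hT α
      by_cases hα : α ∈ Ioo b (b + l)
      · rw [indicator_of_mem hα]
        have h3 : 1 ≤ GM β l (α - c) := by
          apply GM_ge hβ hl
          rw [abs_lt, hc]
          constructor <;> linarith [hα.1, hα.2]
        nlinarith
      · rw [indicator_of_notMem hα]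
        exact mul_nonneg (GM_nonneg hβ hl _) h2
  refine h1.trans ?_
  rw [hE, pairCount_eq RH]
  have h4 : ∑ i ∈ FZ T, ∑ j ∈ FZ T, wZ i * wZ j *
      (cosT (fun x => GM β l (x - c)) (Real.log T * (gZ i - gZ j) / (2 * π)) * Wt (gZ i - gZ j)) ≤
      (l + 1 / β) * ∑ i ∈ FZ T, ∑ j ∈ FZ T,
      if 2 * π * (-β) / Real.log T ≤ gZ i - gZ j ∧ gZ i - gZ j ≤ 2 * π * β / Real.log T then wZ i * wZ j else 0 := by
    rw [Finset.mul_sum]
    refine Finset.sum_le_sum fun i _ => ?_
    rw [Finset.mul_sum]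
    refine Finset.sum_le_sum fun j _ => ?_
    have hw : 0 ≤ wZ i * wZ j := by
      unfold wZ
      positivity
    rw [Pool.Agent.H5.cosT_shift (GM_int hβ hl) (GM_neg β l)]
    have hl' : 0 ≤ l + 1 / β := by positivity
    have hW : 0 ≤ Wt (gZ i - gZ j) := Wt_nonneg _
    have hW1 : Wt (gZ i - gZ j) ≤ 1 := by have := (one_sub_Wt (gZ i - gZ j)).1; linarith
    by_cases hx : |Real.log T * (gZ i - gZ j) / (2 * π)| < β
    · have h5 : 2 * π * (-β) / Real.log T ≤ gZ i - gZ j ∧ gZ i - gZ j ≤ 2 * π * β / Real.log T := by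
        rw [abs_lt, lt_div_iff₀ (by positivity), div_lt_iff₀ (by positivity)] at hx
        rw [div_le_iff₀ hlog, le_div_iff₀ hlog]
        constructor <;> linarith [hx.1, hx.2]
      rw [if_pos h5]
      obtain ⟨A, hA⟩ : ∃ A, A = Real.cos (2 * π * c * (Real.log T * (gZ i - gZ j) / (2 * π))) := ⟨_, rfl⟩
      obtain ⟨D, hD⟩ : ∃ D, D = cosT (GM β l) (Real.log T * (gZ i - gZ j) / (2 * π)) := ⟨_, rfl⟩
      rw [← hA, ← hD]
      have hA1 : |A| ≤ 1 := by rw [hA]; exact Real.abs_cos_le_one _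
      have hD1 : |D| ≤ l + 1 / β := by rw [hD]; exact cosT_GM_le hβ hl _
      have h6 : A * D * Wt (gZ i - gZ j) ≤ l + 1 / β := by
        calc A * D * Wt (gZ i - gZ j) ≤ |A * D * Wt (gZ i - gZ j)| := le_abs_self _
          _ = |A| * |D| * Wt (gZ i - gZ j) := by rw [abs_mul, abs_mul, abs_of_nonneg hW]
          _ ≤ 1 * (l + 1 / β) * 1 := by gcongr
          _ = l + 1 / β := by ring
      calc wZ i * wZ j * (A * D * Wt (gZ i - gZ j)) ≤ wZ i * wZ j * (l + 1 / β) := by gcongr
        _ = (l + 1 / β) * (wZ i * wZ j) := by ring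
    · rw [cosT_GM hβ hl (not_lt.1 hx), mul_zero, zero_mul, mul_zero]
      refine mul_nonneg hl' ?_
      split_ifs
      · exact hw
      · exact le_rfl
  calc (1 / PC.norm T) * _ ≤ (1 / PC.norm T) * _ := mul_le_mul_of_nonneg_left h4 (by positivity)
    _ = _ := by ring

/-- the form of the inequality used with a bound for the close pairs -/
theorem avg_of (RH : RiemannHypothesis) {β C : ℝ} (hβ : 0 < β) (hC : 0 ≤ C)
    (h : ∀ᶠ T in atTop, PC.pairCount T (-β) β ≤ C * PC.norm T) :
    ∀ ε > 0, ∃ l0 > 0, ∀ᶠ T in atTop, ∀ b l : ℝ, l0 ≤ l →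
      ∫ α in b..b + l, formFactor T α ≤ (C + ε) * l := by
  intro ε hε
  refine ⟨(C + 1) / (ε * β), by positivity, ?_⟩
  filter_upwards [h, eventually_gt_atTop 1] with T h1 hT b l hl
  have hn := norm_pos hT
  have hl0 : 0 < l := lt_of_lt_of_le (by positivity) hl
  have h2 := avg_le RH (b := b) hT hβ hl0
  have h3 : PC.pairCount T (-β) β / PC.norm T ≤ C := by rwa [div_le_iff₀ hn]
  have h4 : (l + 1 / β) * (PC.pairCount T (-β) β / PC.norm T) ≤ (l + 1 / β) * C :=
    mul_le_mul_of_nonneg_left h3 (by positivity)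
  have h5 : C / β ≤ ε * l := by
    have h6 : (C + 1) / (ε * β) * (ε * β) ≤ l * (ε * β) := mul_le_mul_of_nonneg_right hl (by positivity)
    rw [div_mul_cancel₀ _ (by positivity)] at h6
    rw [div_le_iff₀ hβ]
    linarith
  have h7 : (l + 1 / β) * C = l * C + C / β := by ring
  linarith

end H11.SZ2
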