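import Pool.Agent.H98.SZ.Sle

/-!
# The slot of `1 * x`
-/

set_option autoImplicit false

open MeasureTheory Filter Topology

namespace H11.SZ2

open H98.SZ

theorem sl_ox {P ph : ℝ → ℂ} (h : FL P ph) :
    Sl2 (fun L => oF * xF P L)
      (fun t τ => τ / t * ∫ η : ℝ, ph η * ((t + (2 + Complex.I * η)) / (τ + (2 + Complex.I * η)))) := by
  have mph : Measurable ph := h.meas
  refine ⟨ℝ, inferInstance, volume, inferInstance, ph, fun _ => 0, fun η => 2 + Complex.I * (η : ℂ), ?_, ?_, ?_⟩
  · have mb : Measurable fun η : ℝ => 2 + Complex.I * (η : ℂ) := by fun_prop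
    refine ⟨mph, measurable_const, mb, fun η => by norm_num, fun η => ?_, fun K => ?_⟩
    · rw [(Sle_I η).1]
      norm_num
    · have h1 := (h.int K).const_mul ((10 : ℝ) ^ K)
      refine h1.mono' ?_ (Filter.Eventually.of_forall fun η => ?_)
      · exact Measurable.aestronglyMeasurable
          (mph.norm.mul (((measurable_const.add measurable_const.norm).add mb.norm).pow_const K))
      · have h2 := (Sle_I η).2
        have h3 := abs_nonneg η
        have h4 : 1 + ‖(0 : ℂ)‖ + ‖2 + Complex.I * (η : ℂ)‖ ≤ 10 * (1 + |η|) := by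
          rw [norm_zero]
          linarith
        have h5 : (0 : ℝ) ≤ 1 + ‖(0 : ℂ)‖ + ‖2 + Complex.I * (η : ℂ)‖ := by positivity
        rw [Real.norm_of_nonneg (by positivity)]
        calc ‖ph η‖ * (1 + ‖(0 : ℂ)‖ + ‖2 + Complex.I * (η : ℂ)‖) ^ K
            ≤ ‖ph η‖ * (10 * (1 + |η|)) ^ K := by gcongr
          _ = 10 ^ K * (‖ph η‖ * (1 + |η|) ^ K) := by rw [mul_pow]; ring
  · intro L _
    ext k
    by_cases hk : k = 0
    · subst hk
      simp
    have hx : ∀ x ∈ Nat.divisorsAntidiagonal k, x.1 ≠ 0 ∧ x.2 ≠ 0 := by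
      intro x hx
      have := Nat.mem_divisorsAntidiagonal.mp hx
      constructor
      · rintro h0; rw [h0, zero_mul] at this; exact hk this.1.symm
      · rintro h0; rw [h0, mul_zero] at this; exact hk this.1.symm
    change ∫ η : ℝ, ph η * (pw (0 / (L : ℂ)) * mpw ((2 + Complex.I * (η : ℂ)) / (L : ℂ))) k = _
    have h2 : ∀ η : ℝ, ph η * (pw (0 / (L : ℂ)) * mpw ((2 + Complex.I * (η : ℂ)) / (L : ℂ))) k =
        ∑ x ∈ Nat.divisorsAntidiagonal k, (ArithmeticFunction.moebius x.2 : ℂ) *
          (ph η * (x.2 : ℂ) ^ (-((2 + Complex.I * (η : ℂ)) / (L : ℂ)))) := by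
      intro η
      rw [ArithmeticFunction.mul_apply, Finset.mul_sum]
      refine Finset.sum_congr rfl fun x hxx => ?_
      rw [Sle_pw (hx x hxx).1, Sle_mpw (hx x hxx).2, zero_div, neg_zero, Complex.cpow_zero]
      ring
    simp only [h2]
    have hph : ∀ x ∈ Nat.divisorsAntidiagonal k,
        Integrable (fun η : ℝ => ph η * (x.2 : ℂ) ^ (-((2 + Complex.I * (η : ℂ)) / (L : ℂ)))) := by
      intro x hxx
      have h0 := h.int 0
      simp only [pow_zero, mul_one] at h0
      have hx2 : (x.2 : ℂ) ≠ 0 := by exact_mod_cast (hx x hxx).2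
      have hx2' : (0 : ℝ) < x.2 := by exact_mod_cast Nat.pos_of_ne_zero (hx x hxx).2
      have hc : Continuous fun η : ℝ => (x.2 : ℂ) ^ (-((2 + Complex.I * (η : ℂ)) / (L : ℂ))) :=
        Continuous.const_cpow (by fun_prop) (Or.inl hx2)
      refine Integrable.mono' (h0.const_mul ((x.2 : ℝ) ^ (-(2 / L)))) (mph.mul hc.measurable).aestronglyMeasurable
        (Filter.Eventually.of_forall fun η => ?_)
      rw [norm_mul, mul_comm]
      gcongr
      rw [show ((x.2 : ℂ)) = (((x.2 : ℝ)) : ℂ) by push_cast; rfl, Complex.norm_cpow_eq_rpow_re_of_pos hx2']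
      apply le_of_eq
      congr 1
      rw [Complex.neg_re, Complex.div_ofReal_re]
      simp
    rw [integral_finsetSum _ (fun x hxx => (hph x hxx).const_mul _), ArithmeticFunction.mul_apply]
    refine Finset.sum_congr rfl fun x hxx => ?_
    rw [integral_const_mul, Sle_rep h (hx x hxx).2]
    have e : oF x.1 = 1 := by
      unfold oF
      rw [Sle_pw (hx x hxx).1, neg_zero, Complex.cpow_zero]
    rw [e]
    simp only [xF, ArithmeticFunction.coe_mk]
    ring
  · intro y ξ
    unfold R2
    show _ = (2 + Complex.I * (ξ : ℂ)) / (1 + Complex.I * (y : ℂ)) * ∫ η : ℝ, ph η *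
      (((1 + Complex.I * (y : ℂ)) + (2 + Complex.I * η)) / ((2 + Complex.I * (ξ : ℂ)) + (2 + Complex.I * η)))
    rw [← integral_const_mul]
    congr 1
    funext η
    simp only [add_zero]
    ring

end H11.SZ2
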