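import Pool.Agent.H11.SZ.Fin
import Pool.Agent.H11.SZ2.Slot
import Pool.Agent.H82.SZ2.Defs

/-!
# Block I4: the main term of the mean square of `ζ M`
-/

open Finset Filter Topology MeasureTheory Complex
open scoped ArithmeticFunction.vonMangoldt ArithmeticFunction.Moebius ArithmeticFunction.zeta

namespace H11.SZ2

open H11.SZ

/-- the kernel `τ² / (t² (τ - t))` -/
theorem Li_k {τ : ℂ} (hτ : τ.re = 2) : Li (fun t => R1 τ t * R1 τ t / (τ - t)) := by
  refine Li_congr (K := fun t => τ * (1 / t ^ (0 + 2)) + τ / (t * (τ - t))) (fun y => ?_)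
    (((Li_pow 0).smul _).add (Li_ker hτ))
  unfold R1
  have := tt_ne y
  have := tau_sub_ne hτ y
  field_simp
  ring

/-- the kernel `t τ² / (t² (τ - t))` -/
theorem Li_k1 {τ : ℂ} (hτ : τ.re = 2) : Li (fun t => t * (R1 τ t * R1 τ t / (τ - t))) := by
  refine Li_congr (K := fun t => τ * (τ / (t * (τ - t)))) (fun y => ?_) ((Li_ker hτ).smul _)
  unfold R1
  have := tt_ne y
  have := tau_sub_ne hτ y
  field_simp

/-- the kernel `1 * 1 * x` -/
theorem kn_11x {τ τ' : ℂ} (hτ : τ.re = 2) (hτ' : τ'.re = 2) :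
    II (fun t => R1 τ t * R1 τ t * Rx τ' τ t / (τ - t)) = 1 + τ * τ' / (τ + τ') := by
  have h1 := add_ne_of_re2 hτ hτ'
  have h : ∀ y : ℝ, τ * τ' / (τ + τ') * (1 / (tt y) ^ (0 + 2)) + τ / (tt y * (τ - tt y))
      = R1 τ (tt y) * R1 τ (tt y) * Rx τ' τ (tt y) / (τ - tt y) := by
    intro y; unfold R1 Rx
    have := tt_ne y
    have := tau_sub_ne hτ y
    field_simp
    ring
  rw [← II_congr (K := fun t => τ * τ' / (τ + τ') * (1 / t ^ (0 + 2)) + τ / (t * (τ - t))) h,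
    II_add ((Li_pow 0).smul _) (Li_ker hτ), II_smul, II_pow, II_ker hτ]
  simp
  ring

section

variable {P : ℝ → ℝ} (h : Rc P)
include h

/-- type `1 * 1 * x` -/
theorem ev_11x : HI (fun p : ℝ × ℝ => pc (cx P) p.1 * pc (cx P) p.2 *
      II (fun t => R1 (tau p.1) t * R1 (tau p.1) t * Rx (tau p.2) (tau p.1) t / (tau p.1 - t)))
    ((P 0 ^ 2 + ∫ v in (0:ℝ)..1, deriv P v ^ 2 : ℝ) : ℂ) := by
  have T1 := (h0 h).prod (h0 h)
  have T2 := HI.dbl (i_t h) (i_t h) (d_tt h h)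
  refine (T1.add T2).congr (fun p => ?_) (by
    simp only [← pow_two]
    push_cast
    ring)
  rw [kn_11x (tau_re p.1) (tau_re p.2)]
  have n3 := add_ne_of_re2 (tau_re p.1) (tau_re p.2)
  field_simp

/-- the value of the limit functional -/
theorem NL_11x : H98.SZ.NL (pc (cx P)) (fun t τ => τ / t * 1 *
    (τ / t * ∫ η : ℝ, pc (cx P) η * ((t + (2 + I * η)) / (τ + (2 + I * η)))))
    = ((P 0 ^ 2 + ∫ v in (0:ℝ)..1, deriv P v ^ 2 : ℝ) : ℂ) := by
  refine NL_two (K0 := fun τ t => R1 τ t * R1 τ t) (k := Rx) (ev_11x h) (fun ξ => ?_) (fun y ξ => ?_)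
  · exact swap_x (Li_k (tau_re ξ)) (Li_k1 (tau_re ξ)) (i_p h) (i_t h) ξ
  · unfold R1 Rx
    simp only [tau_eq]
    ring

theorem L_11x {j : ℕ} (hj : j ≤ 1) : H82SZ.MLim P j (0 + j)
    (fun T => (ζ : ArithmeticFunction ℝ) * (ζ : ArithmeticFunction ℝ) * H82SZ.xk P T)
    (P 0 ^ 2 + ∫ v in (0:ℝ)..1, deriv P v ^ 2) := by
  refine mlim_of h H98.SZ.sl_one H98.SZ.sl_triv (sl_ox (fl h.nc)) hj (i := 0) rfl
    (((PB_zeta.mul PB_zeta).mul (PB_x h.cont h.cs)).mono (by norm_num)) (NL_11x h) (fun T hT n => ?_)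
  rw [pow_zero]
  refine fin_step ?_ n
  rw [cf_mul, cf_mul, cf_zeta, cf_x, one_smul, mul_one, mul_assoc]

end

/-- block I4 -/
theorem i4 : H82SZ.I4stat := by
  intro ε P hε hε' hP
  exact L_11x (rc_of (by linarith) hP) (j := 0) (Nat.zero_le 1)

end H11.SZ2
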