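import Pool.Agent.H11.SZ2.Avg

/-!
# SZ2, part (4): averages of Montgomery's function
-/

open MeasureTheory Set Filter Topology

namespace H11.SZ2

open Pool.Agent Pool.Agent.H6

/-- Montgomery's function is nonnegative -/
theorem formFactor_nonneg (RH : RiemannHypothesis) {T : ℝ} (hT : 1 < T) (α : ℝ) : 0 ≤ formFactor T α := by
  rw [formFactor_eq RH]
  exact FF_nonneg hT α

/-- averages of `F(α, T)` over all long intervals -/
theorem favg (RH : RiemannHypothesis) {c : ℝ}
    (h : ∃ b : ℝ, 0 < b ∧ ∀ᶠ T in atTop, PC.pairCount T (-b) b ≤ c * PC.norm T) {c' : ℝ} (hc : c < c') :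
    ∃ l0 : ℝ, 0 < l0 ∧ ∀ᶠ T in atTop, ∀ b l : ℝ, l0 ≤ l →
      ∫ α in b..b + l, formFactor T α ≤ c' * l := by
  obtain ⟨β, hβ, h⟩ := h
  have hc0 : 0 ≤ c := by
    obtain ⟨T, h1, hT⟩ := (h.and (eventually_gt_atTop 1)).exists
    have hn := norm_pos hT
    have h2 : 0 ≤ PC.pairCount T (-β) β := by
      rw [pairCount_eq RH]
      refine Finset.sum_nonneg fun i _ => Finset.sum_nonneg fun j _ => ?_
      split_ifs
      · unfold wZ
        positivity
      · exact le_rfl
    by_contra hneg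
    push Not at hneg
    nlinarith
  obtain ⟨l0, hl0, h3⟩ := avg_of RH hβ hc0 h (c' - c) (by linarith)
  refine ⟨l0, hl0, ?_⟩
  filter_upwards [h3] with T hT b l hl
  have := hT b l hl
  have e : c + (c' - c) = c' := by ring
  rwa [e] at this

end H11.SZ2
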